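import Mathlib

/-! WH project (MP_58257a_co), module ES, part 1: sorting chains, the reflection. -/

set_option autoImplicit false

namespace Pool.Agent.helper11.WH

open Finset

theorem ES_sort {α : Type*} [PartialOrder α] [DecidableEq α] [Inhabited α] (m : ℕ) :
    ∀ C : Finset α, (∀ a ∈ C, ∀ b ∈ C, a ≠ b → a < b ∨ b < a) → m ≤ C.card →
      ∃ f : ℕ → α, (∀ i, i < m → f i ∈ C) ∧ ∀ i, i + 1 < m → f i < f (i + 1) := by
  induction m with
  | zero => exact fun C _ _ => ⟨fun _ => default, fun i hi => absurd hi (by omega),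
      fun i hi => absurd hi (by omega)⟩
  | succ m ih =>
    intro C hC hm
    have hne : C.Nonempty := Finset.card_pos.1 (by omega)
    obtain ⟨c, hc⟩ := C.exists_minimal hne
    have hlt : ∀ a ∈ C.erase c, c < a := by
      intro a ha
      rw [Finset.mem_erase] at ha
      rcases hC a ha.2 c hc.1 ha.1 with h | h
      · exact absurd (hc.2 ha.2 h.le) (not_le_of_gt h)
      · exact h
    obtain ⟨f, h1, h2⟩ := ih (C.erase c)
      (fun a ha b hb => hC a (Finset.mem_of_mem_erase ha) b (Finset.mem_of_mem_erase hb))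
      (by rw [Finset.card_erase_of_mem hc.1]; omega)
    refine ⟨fun i => if i = 0 then c else f (i - 1), ?_, ?_⟩
    · intro i hi
      by_cases h0 : i = 0
      · simp only [h0, if_true]
        exact hc.1
      · simp only [if_neg h0]
        exact Finset.mem_of_mem_erase (h1 _ (by omega))
    · intro i hi
      simp only [Nat.add_sub_cancel, if_neg (Nat.succ_ne_zero i)]
      by_cases h0 : i = 0
      · subst h0
        simp only [if_true]
        exact hlt _ (h1 0 (by omega))
      · simp only [if_neg h0]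
        have := h2 (i - 1) (by omega)
        rwa [Nat.sub_add_cancel (by omega)] at this

/-- the reflection -/
def refl (p : ℝ × ℝ) : ℝ × ℝ := (p.1, -p.2)

theorem ES_refl (p : ℝ × ℝ) : refl (refl p) = p := by
  simp [refl]

theorem ES_cmp {a b : ℝ × ℝ} (h1 : ¬ a < b) (h2 : ¬ b < a) (hne : a ≠ b) :
    refl a < refl b ∨ refl b < refl a := by
  obtain ⟨a1, a2⟩ := a
  obtain ⟨b1, b2⟩ := b
  simp only [Prod.mk_lt_mk, refl, neg_lt_neg_iff, neg_le_neg_iff] at *
  rcases lt_trichotomy a1 b1 with h | h | h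
  · have : ¬ a2 ≤ b2 := fun h' => h1 (Or.inl ⟨h, h'⟩)
    exact Or.inl (Or.inl ⟨h, by linarith⟩)
  · subst h
    exfalso
    rcases lt_trichotomy a2 b2 with h | h | h
    · exact h1 (Or.inr ⟨le_rfl, h⟩)
    · subst h
      exact hne rfl
    · exact h2 (Or.inr ⟨le_rfl, h⟩)
  · have : ¬ b2 ≤ a2 := fun h' => h2 (Or.inl ⟨h, h'⟩)
    exact Or.inr (Or.inl ⟨h, by linarith⟩)

end Pool.Agent.helper11.WH
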