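import Pool.Agent.helper76.WH.MI
import Pool.Agent.helper52.WH.Refl

/-! WH project (MP_58257a_co), module ES: Erdos-Szekeres for the product order. -/

set_option autoImplicit false

namespace Pool.Agent.helper11.WH

open Finset

theorem erdos_szekeres (m : ℕ) (P : Finset (ℝ × ℝ)) (hP : (m - 1) ^ 2 < P.card) :
    (∃ f : ℕ → ℝ × ℝ, (∀ i, i < m → f i ∈ P) ∧ ∀ i, i + 1 < m → f i < f (i + 1)) ∨
    (∃ f : ℕ → ℝ × ℝ, (∀ i, i < m → f i ∈ P) ∧ ∀ i, i + 1 < m → refl (f i) < refl (f (i + 1))) := by
  classical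
  by_cases hch : ∃ C ⊆ P, (∀ a ∈ C, ∀ b ∈ C, a ≠ b → a < b ∨ b < a) ∧ m ≤ C.card
  · obtain ⟨C, hCP, hC, hm⟩ := hch
    obtain ⟨f, h1, h2⟩ := ES_sort m C hC hm
    exact Or.inl ⟨f, fun i hi => hCP (h1 i hi), h2⟩
  · right
    push Not at hch
    obtain ⟨D, hDP, hD, hcard⟩ := exists_antichain (fun a b : ℝ × ℝ => a < b) (fun a => lt_irrefl a)
      (fun a b c => lt_trans) P (m - 1) (fun _ => 1) (by
        intro C hCP hC
        have := hch C hCP hC
        simp only [Finset.sum_const, smul_eq_mul, mul_one]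
        omega)
    simp only [Finset.sum_const, smul_eq_mul, mul_one] at hcard
    have hm : m ≤ D.card := by
      by_contra h
      have h1 : D.card ≤ m - 1 := by omega
      have h2 : (m - 1) * D.card ≤ (m - 1) * (m - 1) := Nat.mul_le_mul_left _ h1
      rw [sq] at hP
      omega
    have hinj : Function.Injective refl := fun a b hab => by rw [← ES_refl a, hab, ES_refl]
    obtain ⟨g, h1, h2⟩ := ES_sort m (D.image refl) (by
      intro a ha b hb hab
      obtain ⟨a', ha', rfl⟩ := Finset.mem_image.1 ha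
      obtain ⟨b', hb', rfl⟩ := Finset.mem_image.1 hb
      have hne : a' ≠ b' := fun h => hab (by rw [h])
      exact ES_cmp (hD a' ha' b' hb') (hD b' hb' a' ha') hne) (by
      rwa [Finset.card_image_of_injective _ hinj])
    refine ⟨fun i => refl (g i), ?_, ?_⟩
    · intro i hi
      obtain ⟨a, ha, hga⟩ := Finset.mem_image.1 (h1 i hi)
      simp only [← hga, ES_refl]
      exact hDP ha
    · intro i hi
      simp only [ES_refl]
      exact h2 i hi

end Pool.Agent.helper11.WH
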