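import Pool.Agent.helper61.WH.GP

/-! WH project (MP_58257a_co), module RE: from general position to real points. -/

set_option autoImplicit false

namespace Pool.Agent.helper11.WH

open Finset

theorem RE_rank {ι L : Type*} [Fintype ι] [LinearOrder L] (k : ι → L) :
    ∃ x : ι → ℤ, ∀ s q, x s ≤ x q ↔ k s ≤ k q := by
  classical
  refine ⟨fun s => ((univ.filter fun q => k q < k s).card : ℤ), fun s q => ?_⟩
  constructor
  · intro h
    by_contra hn
    push Not at hn
    have h1 : (univ.filter fun r => k r < k q) ⊂ (univ.filter fun r => k r < k s) := by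
      rw [Finset.ssubset_iff_of_subset]
      · exact ⟨q, by simpa using hn, by simp⟩
      · intro r hr
        simp only [Finset.mem_filter, Finset.mem_univ, true_and] at hr ⊢
        exact hr.trans hn
    have h2 := Finset.card_lt_card h1
    simp only [Nat.cast_le] at h
    omega
  · intro h
    simp only [Nat.cast_le]
    apply Finset.card_le_card
    intro r hr
    simp only [Finset.mem_filter, Finset.mem_univ, true_and] at hr ⊢
    exact hr.trans_le h

theorem RE_back {ι : Type*} [Fintype ι] (x : ι → ℤ) (c : ι → ℝ) (hc : ∀ s q, x s ≤ x q → c s ≤ c q) :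
    ∃ g : ℤ → ℝ, ∀ p q : ι, ∀ i : ℤ, x p ≤ i → i ≤ x q → c p ≤ g i ∧ g i ≤ c q := by
  classical
  have h : ∀ i : ℤ, ∃ t : ℝ, ∀ p q : ι, x p ≤ i → i ≤ x q → c p ≤ t ∧ t ≤ c q := by
    intro i
    by_cases hne : (univ.filter fun s => x s ≤ i).Nonempty
    · obtain ⟨m, hm, hmax⟩ := Finset.exists_max_image _ c hne
      simp only [Finset.mem_filter, Finset.mem_univ, true_and] at hm hmax
      exact ⟨c m, fun p q hp hq => ⟨hmax p hp, hc m q (hm.trans hq)⟩⟩
    · refine ⟨0, fun p q hp _ => ?_⟩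
      exact absurd ⟨p, by simpa using hp⟩ hne
  choose g hg using h
  exact ⟨g, fun p q i h1 h2 => hg i p q h1 h2⟩

theorem pairs_real (P : Finset (ℝ × ℝ)) :
    ∃ Z : Finset (ℝ × ℝ), 1000 * Z.card ≤ 999 * P.card ∧
      ∀ p ∈ P, ∀ q ∈ P, p < q → ∃ z ∈ Z, p ≤ z ∧ z ≤ q := by
  classical
  obtain ⟨x, hx⟩ := RE_rank (fun p : P => toLex (p.1.1, p.1.2))
  obtain ⟨y, hy⟩ := RE_rank (fun p : P => toLex (p.1.2, p.1.1))
  have hxi : Function.Injective x := by
    intro p q h
    have h1 := le_antisymm ((hx p q).1 h.le) ((hx q p).1 h.ge)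
    have h2 := toLex.injective h1
    rw [Prod.mk.injEq] at h2
    exact Subtype.ext (Prod.ext h2.1 h2.2)
  have hyi : Function.Injective y := by
    intro p q h
    have h1 := le_antisymm ((hy p q).1 h.le) ((hy q p).1 h.ge)
    have h2 := toLex.injective h1
    rw [Prod.mk.injEq] at h2
    exact Subtype.ext (Prod.ext h2.2 h2.1)
  obtain ⟨g, hg⟩ := RE_back x (fun p : P => p.1.1) (fun s q h => by
    have := (hx s q).1 h
    rw [Prod.Lex.toLex_le_toLex] at this
    rcases this with h | h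
    · exact h.le
    · exact h.1.le)
  obtain ⟨h, hh⟩ := RE_back y (fun p : P => p.1.2) (fun s q h => by
    have := (hy s q).1 h
    rw [Prod.Lex.toLex_le_toLex] at this
    rcases this with h | h
    · exact h.le
    · exact h.1.le)
  obtain ⟨Z, hZ1, hZ2⟩ := pairs_gp x y hxi hyi
  refine ⟨Z.image fun z => (g z.1, h z.2), ?_, ?_⟩
  · have h1 : (Z.image fun z => (g z.1, h z.2)).card ≤ Z.card := Finset.card_image_le
    have h2 : Fintype.card P = P.card := Fintype.card_coe P
    rw [h2] at hZ1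
    omega
  · intro p hp q hq hpq
    have hle : p.1 ≤ q.1 ∧ p.2 ≤ q.2 := hpq.le
    have hne : p ≠ q := hpq.ne
    have h1 : x ⟨p, hp⟩ < x ⟨q, hq⟩ := by
      rw [← not_le, hx, Prod.Lex.toLex_le_toLex]
      rintro (h | h)
      · exact absurd h (not_lt.2 hle.1)
      · exact hne (Prod.ext h.1.symm (le_antisymm hle.2 h.2))
    have h2 : y ⟨p, hp⟩ < y ⟨q, hq⟩ := by
      rw [← not_le, hy, Prod.Lex.toLex_le_toLex]
      rintro (h | h)
      · exact absurd h (not_lt.2 hle.2)
      · exact hne (Prod.ext (le_antisymm hle.1 h.2) h.1.symm)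
    obtain ⟨z, hz, a1, a2, a3, a4⟩ := hZ2 ⟨p, hp⟩ ⟨q, hq⟩ h1 h2
    have b1 := hg ⟨p, hp⟩ ⟨q, hq⟩ z.1 a1 a2
    have b2 := hh ⟨p, hp⟩ ⟨q, hq⟩ z.2 a3 a4
    exact ⟨_, Finset.mem_image_of_mem _ hz, ⟨b1.1, b2.1⟩, ⟨b1.2, b2.2⟩⟩

end Pool.Agent.helper11.WH
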