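import Pool.Agent.helper11.WH.Defs
import Pool.Agent.helper76.WH.SW
import Pool.Agent.helper76.WH.CA
import Pool.Agent.helper76.WH.LB
import Pool.Agent.helper63.WH.LA

/-! WH project (MP_58257a_co), module GO: existence of a large good set. -/

set_option autoImplicit false

namespace Pool.Agent.helper11.WH

open Finset

theorem GO_indep {ι : Type*} [Fintype ι] [DecidableEq ι] {x y : ι → ℤ} {I : Finset ι}
    {Q : Finset (ι × ι)} (hQ : Sys x y I Q) (n : ℕ) : ∀ K : Finset ι, K.card = n →
    ∃ C ⊆ K, K.card ≤ 2 * C.card ∧ ∀ r ∈ C, ∀ w, (r, w) ∈ Q → w ∉ C := by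
  classical
  induction n using Nat.strong_induction_on with
  | _ n ih =>
    intro K hK
    rcases K.eq_empty_or_nonempty with rfl | hne
    · exact ⟨∅, Finset.Subset.refl _, by simp, by simp⟩
    · obtain ⟨r, hr, hmin⟩ := Finset.exists_min_image K x hne
      set K' := K.filter (fun s => s ≠ r ∧ (r, s) ∉ Q) with hK'
      have hsub : K' ⊆ K := Finset.filter_subset _ _
      have hrK' : r ∉ K' := by simp [hK']
      have hlt : K'.card < n := by
        rw [← hK]
        exact Finset.card_lt_card ⟨hsub, fun h => hrK' (h hr)⟩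
      have hle : K.card ≤ K'.card + 2 := by
        have h1 : K ⊆ K' ∪ ({r} ∪ univ.filter fun s => (r, s) ∈ Q) := by
          intro s hs
          simp only [hK', Finset.mem_union, Finset.mem_filter, Finset.mem_singleton,
            Finset.mem_univ, true_and]
          tauto
        have h2 : (univ.filter fun s => (r, s) ∈ Q).card ≤ 1 := by
          rw [Finset.card_le_one]
          intro a ha b hb
          simp only [Finset.mem_filter, Finset.mem_univ, true_and] at ha hb
          exact out_unique hQ ha hb
        have h3 := (Finset.card_le_card h1).trans (Finset.card_union_le _ _)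
        have h4 := Finset.card_union_le {r} (univ.filter fun s => (r, s) ∈ Q)
        rw [Finset.card_singleton] at h4
        omega
      obtain ⟨C, hC1, hC2, hC3⟩ := ih K'.card hlt K' rfl
      have hrC : r ∉ C := fun h => hrK' (hC1 h)
      refine ⟨insert r C, Finset.insert_subset hr (hC1.trans hsub), ?_, ?_⟩
      · rw [Finset.card_insert_of_notMem hrC]
        omega
      · intro a ha w haw hw
        have hcov := (hQ.cov _ haw).1
        simp only at hcov
        rw [Finset.mem_insert] at ha hw
        rcases ha with rfl | ha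
        · rcases hw with rfl | hw
          · exact absurd hcov (lt_irrefl _)
          · have := hC1 hw
            rw [hK', Finset.mem_filter] at this
            exact this.2.2 haw
        · rcases hw with rfl | hw
          · have := hmin a (hsub (hC1 ha))
            omega
          · exact hC3 a ha w haw hw

theorem exists_good {ι : Type*} [Fintype ι] [DecidableEq ι] {x y : ι → ℤ}
    (hx : Function.Injective x) (hy : Function.Injective y) {V : Finset ι} {Q : Finset (ι × ι)}
    (hQ : Sys x y Vᶜ Q) :
    ∃ C : Finset ι, Good x y V Q C ∧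
      Fintype.card ι ≤ 4 * C.card + 3 * V.card + 5 * (St V Q).card := by
  classical
  set K := univ.filter (fun r => Crit x y Q r) with hK
  set X := univ.filter (fun r => ∃ u w, (u, r) ∈ Q ∧ (r, w) ∈ Q ∧ ∃ s, s ∉ V ∧ InR x y u r w s)
    with hX
  set B := univ.filter (fun r => ∃ u w, (u, r) ∈ Q ∧ (r, w) ∈ Q ∧
    (∀ s, s ∉ V → ¬ InR x y u r w s) ∧ ∃ s ∈ V, InR x y u r w s) with hB
  have hcover : (Vᶜ : Finset ι) ⊆ St V Q ∪ (En V Q ∪ (X ∪ (B ∪ K))) := by
    intro r hr
    rw [Finset.mem_compl] at hr
    simp only [Finset.mem_union, mem_St, mem_En, hX, hB, hK, Finset.mem_filter, Finset.mem_univ,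
      true_and]
    by_cases h1 : ∃ u, (u, r) ∈ Q
    · obtain ⟨u, hu⟩ := h1
      by_cases h2 : ∃ w, (r, w) ∈ Q
      · obtain ⟨w, hw⟩ := h2
        by_cases h3 : ∃ s, s ∉ V ∧ InR x y u r w s
        · exact Or.inr (Or.inr (Or.inl ⟨u, w, hu, hw, h3⟩))
        · push Not at h3
          by_cases h4 : ∃ s ∈ V, InR x y u r w s
          · exact Or.inr (Or.inr (Or.inr (Or.inl ⟨u, w, hu, hw, h3, h4⟩)))
          · push Not at h4
            refine Or.inr (Or.inr (Or.inr (Or.inr ⟨u, w, hu, hw, fun s => ?_⟩)))
            by_cases hs : s ∈ V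
            · exact h4 s hs
            · exact h3 s hs
      · push Not at h2
        exact Or.inr (Or.inl ⟨hr, h2⟩)
    · push Not at h1
      exact Or.inl ⟨hr, h1⟩
  have c0 := Finset.card_le_card hcover
  have c1 := Finset.card_union_le (St V Q) (En V Q ∪ (X ∪ (B ∪ K)))
  have c2 := Finset.card_union_le (En V Q) (X ∪ (B ∪ K))
  have c3 := Finset.card_union_le X (B ∪ K)
  have c4 := Finset.card_union_le B K
  have d1 := card_St hQ
  have d2 := card_En hQ
  have d3 := lemmaA hx hy hQ X (fun r hr => by
    rw [hX, Finset.mem_filter] at hr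
    exact hr.2)
  have d4 := lemmaB hx hy hQ B (fun r hr => by
    rw [hB, Finset.mem_filter] at hr
    exact hr.2)
  have d5 : (Vᶜ : Finset ι).card + V.card = Fintype.card ι := by
    rw [Finset.card_compl]
    have := Finset.card_le_univ V
    omega
  obtain ⟨C, hC1, hC2, hC3⟩ := GO_indep hQ K.card K rfl
  refine ⟨C, ⟨?_, ?_, hC3⟩, by omega⟩
  · intro r hr
    have h1 := hC1 hr
    rw [hK, Finset.mem_filter] at h1
    obtain ⟨u, w, hu, -⟩ := h1.2
    exact Finset.mem_compl.1 (hQ.memR _ hu)
  · intro r hr
    have h1 := hC1 hr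
    rw [hK, Finset.mem_filter] at h1
    exact h1.2

end Pool.Agent.helper11.WH
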